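import Pool.Agent.Helper6.NC5

set_option autoImplicit false

namespace Pool.Agent.Results.MP_deb411_al.NoCoverCardinality

open Pool.Agent.Helper6.LVar Pool.Agent.Helper6.NC

/-- **The number of subvarieties without covers.** The set of all subvarieties of the variety
`R` of representable `ℓ`-groups that have no cover in `R` has cardinality continuum. -/
theorem result :
    Cardinal.mk {V : LClass // IsSubvarietyOfR V ∧ NoCover V} = Cardinal.continuum.{1} :=
  card_NN

end Pool.Agent.Results.MP_deb411_al.NoCoverCardinality
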